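import Pool.Agent.helper19.QP.SpecV

/-!
# Row PSN of project qp (MP_ebc808_nt): the function `XI` is not constant
-/

set_option autoImplicit false

open Finset

noncomputable section

namespace Pool.Agent.QP

open Pool.Agent.helper7.IG (kk LL sig DDk MM im2 ps Vx Nb Frame)
open Pool.Agent.LQ (FF DD)

theorem PSN_EE : PowerSeries.constantCoeff Pool.Agent.helper81.EE = 1 := by
  have h1 := congrArg (PowerSeries.constantCoeff (R := ZMod 2)) Pool.Agent.helper81.PP_mul_EE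
  rw [map_mul, map_one] at h1
  have h2 : ∀ a b : ZMod 2, a * b = 1 → b = 1 := by decide
  exact h2 _ _ h1

theorem PSN_coeff {n i : ℕ} (h : n ≤ i) : PowerSeries.coeff n (DD ^ i) = if n = i then 1 else 0 := by
  rw [Pool.Agent.LQ.DD_def, mul_pow, PowerSeries.coeff_X_pow_mul']
  rcases lt_or_eq_of_le h with hlt | heq
  · rw [if_neg (by omega), if_neg hlt.ne]
  · subst heq
    rw [if_pos le_rfl, if_pos rfl, Nat.sub_self, PowerSeries.coeff_zero_eq_constantCoeff_apply, map_pow, map_pow,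
      PSN_EE, one_pow, one_pow]

theorem PSN_empty {NN : Finset ℕ} (h : Rel NN ∅) : NN = ∅ := by
  by_contra hne
  have hne' : NN.Nonempty := nonempty_iff_ne_empty.2 hne
  have h1 := h.2.2 (NN.max' hne') (h.1 _ (NN.max'_mem hne'))
  rw [if_neg (by simp)] at h1
  rw [Finset.sum_eq_single (NN.max' hne')] at h1
  · rw [PSN_coeff le_rfl, if_pos rfl] at h1
    exact one_ne_zero h1
  · intro n hn hne2
    rw [PSN_coeff (NN.le_max' n hn), if_neg hne2]
  · intro h2
    exact absurd (NN.max'_mem hne') h2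

section val

variable {Γ : Type*} [LinearOrderedCommGroupWithZero Γ]

theorem PSN_le {g X : Γ} (hg : 1 < g) {a b : ℕ} (hab : b ≤ a) (hX : X * g ^ a ≤ 1) : X * g ^ b ≤ 1 :=
  le_trans (mul_le_mul' le_rfl (pow_le_pow_right₀ hg.le hab)) hX

theorem PSN_lt {g X Y : Γ} (hg : 1 < g) {a b : ℕ} (hab : b < a) (hX : X * g ^ a ≤ 1) (hY : Y * g ^ b = 1) :
    X < Y := by
  by_contra hc
  rw [not_lt] at hc
  have h1 : 1 ≤ X * g ^ b := by
    rw [← hY]
    exact mul_le_mul' hc le_rfl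
  have h2 : g ^ a = g ^ b * g ^ (a - b) := by
    rw [← pow_add]
    congr 1
    omega
  have h3 : 1 < g ^ (a - b) := one_lt_pow₀ hg (by omega)
  have h4 : g ^ (a - b) ≤ X * g ^ a := by
    rw [h2, ← mul_assoc]
    calc g ^ (a - b) = 1 * g ^ (a - b) := (one_mul _).symm
      _ ≤ X * g ^ b * g ^ (a - b) := mul_le_mul' h1 le_rfl
  exact absurd (h3.trans_le (h4.trans hX)) (lt_irrefl _)

theorem PSN_inv {X G : Γ} (hG : G ≠ 0) : X ≤ G⁻¹ ↔ X * G ≤ 1 := by
  rw [← one_div, le_div_iff₀ (zero_lt_iff.2 hG)]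

end val

theorem PSN_two (F : LL) : F + F = 0 := by
  have : CharP kk 2 := charP_of_injective_algebraMap (algebraMap (ZMod 2) kk).injective 2
  have : CharP LL 2 := charP_of_injective_algebraMap (algebraMap kk LL).injective 2
  exact CharTwo.add_self_eq_zero F

theorem PSN_term (hEST : EST_stmt) (hLDT : LDT_stmt) {N : ℕ} (hN : Odd N) {V : ValuationSubring LL}
    (hc : ∀ c : kk, algebraMap kk LL c ∈ V) {r : LL} (hg : 1 < V.valuation r)
    (hvy : V.valuation (sig N 1 DDk) = V.valuation r ^ 4)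
    (hvz : V.valuation (sig (3 * N) 1 DDk) = V.valuation r ^ 4)
    (hy : sig N 1 DDk = r * (r + 1) ^ 3) (hz : sig (3 * N) 1 DDk = r ^ 3 * (r + 1)) {NN K : Finset ℕ} (a : ℕ)
    (hRel : Rel NN K) {k₀ : ℕ} (hk₀ : k₀ ∈ K) (hmin : ∀ k ∈ K, k₀ ≤ k) (hdvd : ∀ n ∈ NN, n ∣ N) :
    ∃ c : kk, V.valuation ((∑ n ∈ NN,
      (HC n N (fun e ζ => kap (sig e ζ DDk) (sig (3 * N) 1 DDk ^ 2 ^ (a + 1))) +
       HC n (3 * N) (fun e ζ => kap (sig e ζ DDk) (sig N 1 DDk ^ 2 ^ (a + 1))))) + algebraMap kk LL c) *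
      V.valuation r ^ (8 * (2 ^ a * k₀) - 2) = 1 := by
  obtain ⟨c₁, h1⟩ := hEST V N a k₀ (sig (3 * N) 1 DDk) (V.valuation r) NN K hc hN hg hvy hvz hRel hk₀ hmin hdvd
  obtain ⟨c₂, h2⟩ := hEST V (3 * N) a k₀ (sig N 1 DDk) (V.valuation r) NN K hc
    (Odd.mul (by decide) hN) hg hvz hvy hRel hk₀ hmin (fun n hn => Dvd.dvd.mul_left (hdvd n hn) 3)
  have hk1 : 1 ≤ 2 ^ a * k₀ := by
    have : 0 < k₀ := (hRel.2.1 k₀ hk₀).pos
    have h3 : 0 < 2 ^ a := by positivity
    exact Nat.mul_pos h3 this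
  have h3 := hLDT V r (2 ^ a * k₀) hk1 hg
  have h4 : 2 * (2 ^ a * k₀) = 2 ^ (a + 1) * k₀ := by ring
  rw [h4, ← hy, ← hz] at h3
  refine ⟨c₁ + c₂, ?_⟩
  have hcc : algebraMap kk LL (c₁ + c₂) = algebraMap kk LL c₁ + algebraMap kk LL c₂ := map_add _ _ _
  rw [Finset.sum_add_distrib, hcc]
  set P₁ := ∑ n ∈ NN, HC n N (fun e ζ => kap (sig e ζ DDk) (sig (3 * N) 1 DDk ^ 2 ^ (a + 1))) with hP₁
  set P₂ := ∑ n ∈ NN, HC n (3 * N) (fun e ζ => kap (sig e ζ DDk) (sig N 1 DDk ^ 2 ^ (a + 1))) with hP₂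
  set L₁ := sig N 1 DDk / sig (3 * N) 1 DDk ^ (2 ^ (a + 1) * k₀) with hL₁
  set L₂ := sig (3 * N) 1 DDk / sig N 1 DDk ^ (2 ^ (a + 1) * k₀) with hL₂
  have h5 : P₁ + P₂ + (algebraMap kk LL c₁ + algebraMap kk LL c₂) =
      ((P₁ + algebraMap kk LL c₁ + L₁) + (P₂ + algebraMap kk LL c₂ + L₂)) + (L₁ + L₂) := by
    have e1 := PSN_two L₁
    have e2 := PSN_two L₂
    linear_combination -e1 - e2
  have h6 : V.valuation ((P₁ + algebraMap kk LL c₁ + L₁) + (P₂ + algebraMap kk LL c₂ + L₂)) *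
      V.valuation r ^ (8 * (2 ^ a * k₀) - 1) ≤ 1 := by
    have h7 := V.valuation.map_add (P₁ + algebraMap kk LL c₁ + L₁) (P₂ + algebraMap kk LL c₂ + L₂)
    rcases max_cases (V.valuation (P₁ + algebraMap kk LL c₁ + L₁)) (V.valuation (P₂ + algebraMap kk LL c₂ + L₂)) with h | h
    · rw [h.1] at h7
      exact le_trans (mul_le_mul' h7 le_rfl) h1
    · rw [h.1] at h7
      exact le_trans (mul_le_mul' h7 le_rfl) h2
  have h8 : V.valuation ((P₁ + algebraMap kk LL c₁ + L₁) + (P₂ + algebraMap kk LL c₂ + L₂)) < V.valuation (L₁ + L₂) :=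
    PSN_lt hg (by omega) h6 h3
  rw [h5, Valuation.map_add_eq_of_lt_right _ h8]
  exact h3

/-- the numbers `2 ^ a * k`, `k` odd, are different for different `a` -/
theorem PSN_odd {a b k k' : ℕ} (hk : Odd k) (hk' : Odd k') (h : 2 ^ a * k = 2 ^ b * k') : a = b := by
  have key : ∀ a b k k' : ℕ, Odd k → Odd k' → 2 ^ a * k = 2 ^ b * k' → ¬ a < b := by
    intro a b k k' hk hk' h hlt
    obtain ⟨d, rfl⟩ : ∃ d, b = a + (d + 1) := ⟨b - a - 1, by omega⟩
    rw [pow_add, mul_assoc] at h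
    have h1 : k = 2 ^ (d + 1) * k' := Nat.eq_of_mul_eq_mul_left (by positivity) h
    rw [pow_succ] at h1
    have h2 : Even k := by
      rw [h1]
      exact ⟨2 ^ d * k', by ring⟩
    exact (Nat.not_even_iff_odd.2 hk) h2
  have h1 := key a b k k' hk hk' h
  have h2 := key b a k' k hk' hk h.symm
  omega

theorem PSN (hPLC : PLC_stmt) (hPVB : PVB_stmt) (hEST : EST_stmt) (hLDT : LDT_stmt) : PSN_stmt := by
  classical
  intro N A NN K hN hRel hne hdvd c
  have hN0 : N ≠ 0 := hN.pos.ne'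
  obtain ⟨V, hV, hr⟩ := hPLC N hN0
  obtain ⟨hc1, hg, hvy, hvz, hy, hz⟩ := hPVB N V hN0 hV hr
  set r := sig N 1 UU with hrd
  set g := V.valuation r with hgd
  set T : ℕ → LL := fun a => ∑ n ∈ NN a,
      (HC n N (fun e ζ => kap (sig e ζ DDk) (sig (3 * N) 1 DDk ^ 2 ^ (a + 1))) +
       HC n (3 * N) (fun e ζ => kap (sig e ζ DDk) (sig N 1 DDk ^ 2 ^ (a + 1)))) with hT
  have hXI : XI N A NN = ∑ a ∈ range A, T a := rfl
  -- every term
  have hterm : ∀ a, ∃ (ca : kk) (ka : ℕ), (a < A → K a = ∅ → T a + algebraMap kk LL ca = 0) ∧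
      (a < A → (K a).Nonempty → Odd ka ∧ V.valuation (T a + algebraMap kk LL ca) * g ^ (8 * (2 ^ a * ka) - 2) = 1) := by
    intro a
    by_cases ha : a < A
    · rcases (K a).eq_empty_or_nonempty with h0 | h0
      · refine ⟨0, 0, fun _ _ => ?_, fun _ h => absurd h (by rw [h0]; exact Finset.not_nonempty_empty)⟩
        have h1 := hRel a ha
        rw [h0] at h1
        rw [hT]
        simp only
        rw [PSN_empty h1, Finset.sum_empty, map_zero, add_zero]
      · obtain ⟨ca, hca⟩ := PSN_term hEST hLDT hN hV hg hvy hvz hy hz a (hRel a ha) ((K a).min'_mem h0)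
          (fun k hk => (K a).min'_le k hk) (hdvd a ha)
        refine ⟨ca, (K a).min' h0, fun _ h => absurd h0 (by rw [h]; exact Finset.not_nonempty_empty), fun _ _ => ?_⟩
        exact ⟨(hRel a ha).2.1 _ ((K a).min'_mem h0), hca⟩
    · exact ⟨0, 0, fun h => absurd h ha, fun h => absurd h ha⟩
  choose ca ka hterm0 hterm1 using hterm
  set Fa : ℕ → LL := fun a => T a + algebraMap kk LL (ca a) with hFa
  set S : Finset ℕ := (range A).filter (fun a => (K a).Nonempty) with hS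
  have hSne : S.Nonempty := by
    obtain ⟨a, ha, hK⟩ := hne
    exact ⟨a, by rw [hS, Finset.mem_filter, Finset.mem_range]; exact ⟨ha, hK⟩⟩
  obtain ⟨b, hbS, hbmin⟩ := Finset.exists_min_image S (fun a => 2 ^ a * ka a) hSne
  have hmemS : ∀ a ∈ S, a < A ∧ (K a).Nonempty := by
    intro a ha
    rw [hS, Finset.mem_filter, Finset.mem_range] at ha
    exact ha
  have hFb := (hterm1 b (hmemS b hbS).1 (hmemS b hbS).2)
  have hkb : 1 ≤ 2 ^ b * ka b := Nat.mul_pos (by positivity) hFb.1.pos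
  have hg0 : g ≠ 0 := (lt_trans zero_lt_one hg).ne'
  -- the sum
  have hsum : XI N A NN + algebraMap kk LL (∑ a ∈ range A, ca a) = Fa b + ∑ a ∈ S.erase b, Fa a := by
    rw [Finset.add_sum_erase S Fa hbS, hXI, map_sum, ← Finset.sum_add_distrib]
    rw [hS, Finset.sum_filter]
    apply Finset.sum_congr rfl
    intro a ha
    rw [Finset.mem_range] at ha
    split_ifs with hK
    · rfl
    · exact hterm0 a ha (Finset.not_nonempty_iff_eq_empty.1 hK)
  have hrest : V.valuation (∑ a ∈ S.erase b, Fa a) * g ^ (8 * (2 ^ b * ka b) - 1) ≤ 1 := by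
    rw [← PSN_inv (pow_ne_zero _ hg0)]
    apply Valuation.map_sum_le
    intro a ha
    rw [PSN_inv (pow_ne_zero _ hg0)]
    have haS := Finset.mem_of_mem_erase ha
    have hab : a ≠ b := Finset.ne_of_mem_erase ha
    have h1 := hterm1 a (hmemS a haS).1 (hmemS a haS).2
    have h2 := hbmin a haS
    have h3 : 2 ^ b * ka b ≠ 2 ^ a * ka a := fun h => hab (PSN_odd hFb.1 h1.1 h).symm
    have h4 : 2 ^ b * ka b + 1 ≤ 2 ^ a * ka a := lt_of_le_of_ne h2 h3
    exact PSN_le hg (by omega) h1.2.le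
  have hlt : V.valuation (∑ a ∈ S.erase b, Fa a) < V.valuation (Fa b) :=
    PSN_lt hg (by omega) hrest hFb.2
  have hval : V.valuation (XI N A NN + algebraMap kk LL (∑ a ∈ range A, ca a)) * g ^ (8 * (2 ^ b * ka b) - 2) = 1 := by
    rw [hsum, Valuation.map_add_eq_of_lt_left _ hlt]
    exact hFb.2
  have hval1 : V.valuation (XI N A NN + algebraMap kk LL (∑ a ∈ range A, ca a)) < 1 := by
    have h1 : (1 : V.ValueGroup) * g ^ 0 = 1 := by rw [pow_zero, one_mul]
    exact PSN_lt hg (by omega) hval.le h1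
  have hconst : ∀ d : kk, V.valuation (algebraMap kk LL d) ≤ 1 := fun d => (V.valuation_le_one_iff _).2 (hV d)
  have hXI1 : V.valuation (XI N A NN) ≤ 1 := by
    have h1 : XI N A NN = (XI N A NN + algebraMap kk LL (∑ a ∈ range A, ca a)) + algebraMap kk LL (∑ a ∈ range A, ca a) := by
      have := PSN_two (algebraMap kk LL (∑ a ∈ range A, ca a))
      linear_combination -this
    rw [h1]
    refine le_trans (V.valuation.map_add _ _) (max_le hval1.le (hconst _))
  constructor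
  · intro h
    rw [h, ← map_add] at hval hval1
    by_cases h0 : c + ∑ a ∈ range A, ca a = 0
    · rw [h0, map_zero, map_zero, zero_mul] at hval
      exact zero_ne_one hval
    · rw [hc1 _ h0] at hval1
      exact lt_irrefl _ hval1
  · intro h
    have h1 : V.valuation (XI N A NN + r) = g := Valuation.map_add_eq_of_lt_right _ (lt_of_le_of_lt hXI1 hg)
    rw [h] at h1
    have h2 := hconst c
    rw [h1] at h2
    exact absurd hg (not_lt.2 h2)

end Pool.Agent.QP
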